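import Pool.Agent.Y95.KM.Main
import Pool.Agent.Y95.KM.Prod
import Pool.Agent.Y95.KM.Contr

/-!
# The cone conjecture for klt Calabi–Yau pairs under products, finite quotients and contractions

Let `(X i, Δ i)` be klt Calabi–Yau pairs for which the cone conjecture holds, `P` their product, `G` a
finite group of automorphisms of `P` which preserves the support of the boundary, `Y = P/G` (with the
boundary `Δ_Y` for which `K_P + Δ_P` is the pullback of `K_Y + Δ_Y`; the quotient may be ramified in
codimension one), and `Y → V` a birational contraction, with the push-forward `Δ_V` of `Δ_Y`. Then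
the cone conjecture holds for `(V, Δ_V)`.

This applies for instance to the products of surfaces (Totaro), abelian varieties, hyperkähler
manifolds, pairs of Fano type, and to all the pairs obtained from them by repeating the three
operations.
-/

set_option autoImplicit false

namespace Pool.Agent.Results.MP_9f99c5_ag.CrepantOperations

open Pool.Agent.Y95.KM

theorem result {ι : Type} [Fintype ι] {W A : ι → Type} [∀ i, NormedAddCommGroup (W i)]
    [∀ i, NormedSpace ℝ (W i)] [∀ i, Group (A i)] {B : Type} [Group B]
    {W₁ B₁ : Type} [NormedAddCommGroup W₁] [NormedSpace ℝ W₁] [Group B₁]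
    {W₂ B₂ : Type} [NormedAddCommGroup W₂] [NormedSpace ℝ W₂] [Group B₂]
    -- the factors and their product `P`
    (X : ∀ i, Num (W i) (A i)) (hX : ∀ i, (X i).Good)
    (P : Num (∀ i, W i) B) (hP : P.Good) (hprod : Num.IsProduct X P)
    (hker : P.AbelianKernel)
    -- the quotient `Y` of `P` by the finite group `G`
    (G : Subgroup B) [Finite G] (Y : Num W₁ B₁) (hY : Y.Good) (q : W₁ →ₗ[ℝ] (∀ i, W i))
    (hquot : P.IsQuotient G Y q)
    -- the contraction `Y → V`
    (V : Num W₂ B₂) (hV : V.Good) (r : W₂ →ₗ[ℝ] W₁) (hcontr : Y.IsContraction V r)
    -- the cone conjecture for the factors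
    (hconj : ∀ i, (X i).ConeConj) :
    -- the cone conjecture for `V`
    V.ConeConj :=
  contract hY hV hcontr (descend hP hker hY hquot (product hX hP hprod hconj))

end Pool.Agent.Results.MP_9f99c5_ag.CrepantOperations
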