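import Pool.Agent.Y167.CCMain

set_option autoImplicit false

/-!
# The nef cone conjecture for pairs on quotients of complex tori by finite groups

Let `X = V / Γ` be a projective quotient of a complex torus (an abelian variety) by any finite group,
of any dimension. The group may contain reflections, so that `K_X` need not be trivial. Let `Δ` be an
effective divisor with real coefficients on `X` such that `K_X + Δ` is numerically trivial. The theorem
says that the cone `Nef^e(X)` of nef and effective classes has a rational polyhedral fundamental domain
for the action of `Aut(X, Δ)`, that it is the convex hull `Nef^+(X)` of the rational nef classes, and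
that its faces form finitely many orbits.

The proof: the Chern forms of line bundles are invariant hermitian forms, and they are given by
self-adjoint elements of the algebra of endomorphisms of the torus which commute with the finite group.
Reduction theory (a version of Voronoi's theory of perfect forms for an order in a real algebra with a
positive involution) covers the positive definite forms by the translates, under the units of the
order, of the cone spanned by finitely many integral semidefinite forms. Units in a subgroup of finite
index extend to affine automorphisms of `V` which normalise `Γ` and move points only in directions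
parallel to all mirrors of `Γ`. The Chern form of `K_X` vanishes in these directions, hence so do the
Chern forms of the components of `Δ`, whose sections are then invariant by Liouville's theorem. A
semidefinite rational invariant form is the class of a base point free line bundle, by a construction
with products of theta functions. A Dirichlet domain of a rational linear form with trivial stabiliser
is a fundamental domain.

`latt`, `IsTorusQuotient` and `LineBundle` are defined in `Pool.Agent.W594.SYZ.Defs2`; `IsChernForm`
and `IsPositiveForm` in `Pool.Agent.W594.SYZ.TQDefs`; `IsRamification` and `IsLogPluricanonical` in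
`Pool.Agent.TH735.AQ.MirDefs`; `AffGrp`, `EffDiv`, `NumTrivial` and `Normalizes` in
`Pool.Agent.Y167.Defs`; `LinGrp`, `Preserves`, `IsFundDomain`, `N1`, `integral`, `rational`, `nefCone`,
`effCone` and `IsPullback` in `Pool.Agent.Y167.Stm`; `cone` in `Pool.Agent.Y167.ConeDef`; `IsFace` in
`Pool.Agent.Y167.StmFace`. In the absolute case the linear subspace `E` of `V` of the general
definitions is `V` itself, embedded by the identity map.
-/

namespace Pool.Agent.Results.MP_9f99c5_ag.TorusPairs

open Pool.Agent.W594.SYZ2 Pool.Agent.TH735.AQ
open Pool.Agent.Y167 (AffGrp EffDiv NumTrivial Normalizes cone IsFace rel_abs)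
open Pool.Agent.Y167.CC

/-- The space `N^1(X)`. -/
abbrev NS {V : Type*} [NormedAddCommGroup V] [NormedSpace ℂ V] (Γ : AffGrp V) : Type _ :=
  N1 Γ (LinearMap.id : V →ₗ[ℂ] V)

/-- The cone `Nef^e(X)` of nef and effective classes. -/
def nefEff {V : Type*} [NormedAddCommGroup V] [NormedSpace ℂ V] (Γ : AffGrp V) : Set (NS Γ) :=
  nefCone Γ LinearMap.id ∩ effCone Γ LinearMap.id

/-- `𝒢` is a group of linear automorphisms of `N^1(X)` which preserves the integral classes and the
cone of nef and effective classes, and which contains the pullbacks `f^*` by all automorphisms of `X`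
which are induced by affine transformations `f` of `V` and map `Δ` to itself. The image of
`Aut(X, Δ)` has these properties, also if `Aut(X, Δ)` is defined as the group of the automorphisms
which map the support of `Δ` to itself. -/
structure IsAutGroup {V : Type*} [NormedAddCommGroup V] [NormedSpace ℂ V] {Γ : AffGrp V}
    {ι : Type*} [Fintype ι] (Δ : EffDiv Γ ι) (𝒢 : LinGrp (NS Γ)) : Prop where
  int : Preserves 𝒢 (integral Γ LinearMap.id)
  nef_eff : Preserves 𝒢 (nefEff Γ)
  aff : ∀ f : V ≃ᵃ[ℂ] V, Normalizes Γ f → (∀ v, Δ.mul (f v) = Δ.mul v) →
    ∀ g, IsPullback f g → g ∈ 𝒢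

/-- Let `X = V / Γ` be a projective torus quotient and `Δ` an effective divisor with real coefficients
on `X` such that `K_X + Δ` is numerically trivial. There is a finite set `S` of integral classes such
that the cone spanned by `S` is contained in `Nef^e(X)` and is a fundamental domain for the action of
`𝒢` on `Nef^e(X)`. Moreover `Nef^e(X)` is the convex hull of the rational nef classes, and its faces
form finitely many orbits under `𝒢`. -/
theorem result {V : Type*} [NormedAddCommGroup V] [NormedSpace ℂ V] [FiniteDimensional ℂ V]
    (Γ : AffGrp V) (hΓ : IsTorusQuotient Γ)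
    (hproj : ∃ (L : LineBundle Γ) (H : V → V → ℂ), IsChernForm L H ∧ IsPositiveForm H)
    {ι : Type*} [Fintype ι] (Δ : EffDiv Γ ι) (hΔ : NumTrivial Δ (LinearMap.id : V →ₗ[ℂ] V))
    (𝒢 : LinGrp (NS Γ)) (h𝒢 : IsAutGroup Δ 𝒢) :
    (∃ S : Finset (NS Γ), ↑S ⊆ integral Γ LinearMap.id ∧ cone S ⊆ nefEff Γ ∧
      IsFundDomain 𝒢 (nefEff Γ) (cone S)) ∧
    nefEff Γ = convexHull ℝ (nefCone Γ LinearMap.id ∩ rational Γ LinearMap.id) ∧
    ∃ 𝓕 : Set (Set (NS Γ)), 𝓕.Finite ∧ (∀ F ∈ 𝓕, IsFace F (nefEff Γ)) ∧
      ∀ F, IsFace F (nefEff Γ) → ∃ g ∈ 𝒢, ∃ F' ∈ 𝓕, F = g '' F' := by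
  obtain ⟨L, H, hc, hp⟩ := hproj
  have R := rel_abs hΓ hc hp
  obtain ⟨S, h1, h2, h3⟩ := core_int R Δ hΔ 𝒢 h𝒢.int h𝒢.nef_eff
    (fun f hf _ hf3 g hg => h𝒢.aff f hf hf3 g hg)
  exact ⟨⟨S, h1, h2, h3⟩, nef_plus R, finite_faces 𝒢 R h𝒢.nef_eff h2 h3⟩

end Pool.Agent.Results.MP_9f99c5_ag.TorusPairs
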